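import Pool.Agent.H94.AF.Perf
import Pool.Agent.H94.AF.Full
import Pool.Agent.H94.AF.Trn

set_option autoImplicit false

/-!
The perfect-set form of the Vaught conjecture and the order of the variables in atomic formulas. The
conjecture holds for the adjacent fragment with equality, first-order or infinitary. For the
first-order fragments given by a set of words which contains the words of fluted logic, the
conjecture is a theorem if all words are adjacent, and equivalent to the full conjecture otherwise.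
-/

namespace Pool.Agent.Results.MP_5df2c5_lc.AdjacentFragment

open Set Pool.Agent.H94.AF
open Pool.Agent.H834V (rel code adapt countable_relations countable_sentences)
open Pool.Agent.H565R2.FO2 (Code toI toI_ofI Iso)
open Pool.Agent.H565R2.LO2 (PerfK)

/-- The adjacent sentence `φ` is true in the structure `S`. -/
def Holds {L : FirstOrder.Language.{0, 0}} (S : L.Structure ℕ) (φ : Adj L 0) : Prop :=
  Sat (fun n R t => @FirstOrder.Language.Structure.RelMap L ℕ S n R t) φ Fin.elim0

/-- Vaught's conjecture, perfect-set form, for the structures which satisfy the theory `T` and the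
sentences in `Ψ`. -/
def InfinitaryDichotomy (L : FirstOrder.Language.{0, 0}) (T : L.Theory) (Ψ : Set (Adj L 0)) :
    Prop :=
  (∃ g : ℕ → L.Structure ℕ, ∀ S : L.Structure ℕ,
      @FirstOrder.Language.Theory.Model L ℕ S T → (∀ ψ ∈ Ψ, Holds S ψ) →
        ∃ n : ℕ, Nonempty (@FirstOrder.Language.Equiv L ℕ ℕ S (g n))) ∨
  (∃ f : (ℕ → Bool) → L.Structure ℕ,
      (∀ x : ℕ → Bool, @FirstOrder.Language.Theory.Model L ℕ (f x) T ∧
        ∀ ψ ∈ Ψ, Holds (f x) ψ) ∧
      (∀ x y : ℕ → Bool,
          Nonempty (@FirstOrder.Language.Equiv L ℕ ℕ (f x) (f y)) → x = y) ∧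
      (∀ (n : ℕ) (Q : L.Relations n) (a : Fin n → ℕ),
          IsClopen {x : ℕ → Bool | @FirstOrder.Language.Structure.RelMap L ℕ (f x) n Q a}))

/-- Vaught's conjecture, perfect-set form, for the theory `T` in the language `L` (the body of the
frozen statement): the models with universe `ℕ` fall into countably many isomorphism classes, or
some continuous family of models, indexed by the Cantor space, consists of pairwise
non-isomorphic models. -/
def Dichotomy (L : FirstOrder.Language.{0, 0}) (T : L.Theory) : Prop :=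
  (∃ g : ℕ → L.Structure ℕ, ∀ S : L.Structure ℕ,
      @FirstOrder.Language.Theory.Model L ℕ S T →
        ∃ n : ℕ, Nonempty (@FirstOrder.Language.Equiv L ℕ ℕ S (g n))) ∨
  (∃ f : (ℕ → Bool) → L.Structure ℕ,
      (∀ x : ℕ → Bool, @FirstOrder.Language.Theory.Model L ℕ (f x) T) ∧
      (∀ x y : ℕ → Bool,
          Nonempty (@FirstOrder.Language.Equiv L ℕ ℕ (f x) (f y)) → x = y) ∧
      (∀ (n : ℕ) (R : L.Relations n) (a : Fin n → ℕ),
          IsClopen {x : ℕ → Bool | @FirstOrder.Language.Structure.RelMap L ℕ (f x) n R a}) ∧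
      (∀ (n : ℕ) (F : L.Functions n) (a : Fin n → ℕ) (b : ℕ),
          IsOpen {x : ℕ → Bool | @FirstOrder.Language.Structure.funMap L ℕ (f x) n F a = b}))

/-- Vaught's conjecture for all first-order theories in all countable languages (the frozen
statement). -/
def FullConjecture : Prop :=
  ∀ L : FirstOrder.Language.{0, 0}, Countable L.Symbols → ∀ T : L.Theory, Dichotomy L T

/-- Vaught's conjecture for the first-order theories in countable relational languages in whose
axioms only words of `P` occur. -/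
def ConjectureForWords (P : (n k : ℕ) → (Fin n → Fin k) → Prop) : Prop :=
  ∀ L : FirstOrder.Language.{0, 0}, Countable L.Symbols → ∀ [L.IsRelational], ∀ T : L.Theory,
    (∀ σ ∈ T, InWords P (σ : L.BoundedFormula Empty 0)) → Dichotomy L T

theorem positive (L : FirstOrder.Language.{0, 0}) (hL : Countable L.Symbols)
    (hR : L.IsRelational) (T : L.Theory) (Ψ : Set (Adj L 0)) (hΨ : Ψ.Countable)
    (hT : ∀ σ ∈ T, ∃ φ : Adj L 0, ∀ S : L.Structure ℕ,
      @FirstOrder.Language.Sentence.Realize L ℕ S σ ↔ Holds S φ) : InfinitaryDichotomy L T Ψ := by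
  classical
  have hRc : ∀ n, Countable (L.Relations n) := countable_relations hL
  have hsent : Countable L.Sentence := countable_sentences hL
  choose F hF using hT
  let A : Set (Adj L 0) := Ψ ∪ {φ | ∃ σ, ∃ hσ : σ ∈ T, F σ hσ = φ}
  have hAc : A.Countable := by
    refine hΨ.union ?_
    have : {φ | ∃ σ, ∃ hσ : σ ∈ T, F σ hσ = φ} =
        Set.range (fun σ : T => F σ.1 σ.2) := by
      ext φ
      constructor
      · rintro ⟨σ, hσ, h⟩; exact ⟨⟨σ, hσ⟩, h⟩
      · rintro ⟨σ, h⟩; exact ⟨σ.1, σ.2, h⟩
    rw [this]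
    exact countable_range _
  let K : Set (Code L) := {c | ∀ φ ∈ A, Sat (toI c) φ Fin.elim0}
  have hmod : ∀ S : L.Structure ℕ, (∀ φ ∈ A, Holds S φ) ↔
      (@FirstOrder.Language.Theory.Model L ℕ S T ∧ ∀ ψ ∈ Ψ, Holds S ψ) := by
    intro S
    constructor
    · intro h
      refine ⟨⟨fun σ hσ => ((hF σ hσ) S).2 ?_⟩, fun ψ hψ => h ψ (Or.inl hψ)⟩
      exact h _ (Or.inr ⟨σ, hσ, rfl⟩)
    · rintro ⟨h2, h3⟩ ψ (hψ | ⟨σ, hσ, rfl⟩)
      · exact h3 ψ hψ
      · exact ((hF σ hσ) S).1 (h2.realize_of_mem σ hσ)
  have hK : ∀ S : L.Structure ℕ, code S ∈ K ↔ ∀ φ ∈ A, Holds S φ := by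
    intro S
    show (∀ φ ∈ A, Sat (toI (code S)) φ Fin.elim0) ↔ _
    rw [show toI (code S) = rel S from toI_ofI _]
    exact Iff.rfl
  have hKm : MeasurableSet K := by
    have h1 : K = ⋂ φ ∈ A, {c | Sat (toI c) φ Fin.elim0} := by
      ext c
      simp only [mem_iInter]
      exact Iff.rfl
    rw [h1]
    exact MeasurableSet.biInter hAc fun φ _ => measurableSet_setOfPred.2 (meas_sat φ _)
  have hdich : (∃ g : ℕ → Code L, ∀ c ∈ K, ∃ n, Iso c (g n)) ∨ PerfK K := by
    refine main K hKm (fun c c' σ hσ hc φ hφ => ?_) fun V c hV hc φ hφ => ?_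
    · have h1 := (sat_iso σ hσ φ Fin.elim0).1 (hc φ hφ)
      rwa [Subsingleton.elim (fun i => σ (Fin.elim0 i)) (Fin.elim0 : Fin 0 → ℕ)] at h1
    · exact (sat_bl hV φ Fin.elim0 Fin.elim0 1 (aut c).one_mem fun i => i.elim0).1 (hc φ hφ)
  rcases adapt hR K hdich with ⟨g, hg⟩ | ⟨f, hf1, hf2, hf3⟩
  · left
    exact ⟨g, fun S h2 h3 => hg S ((hK S).2 ((hmod S).2 ⟨h2, h3⟩))⟩
  · right
    refine ⟨f, fun x => ?_, hf2, hf3⟩
    exact (hmod _).1 ((hK (f x)).1 (hf1 x))

/-- (1) Vaught's conjecture holds for the adjacent fragment with equality and reuse of variables, in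
the infinitary form, for all countable relational languages. (2) Let `P` be a set of words which
contains the words of fluted logic. If all words in `P` are adjacent, Vaught's conjecture holds for
the first-order theories in which only words of `P` occur. Otherwise Vaught's conjecture for these
theories is equivalent to the full conjecture. -/
theorem result :
    (∀ L : FirstOrder.Language.{0, 0}, Countable L.Symbols → L.IsRelational →
      ∀ (T : L.Theory) (Ψ : Set (Adj L 0)), Ψ.Countable →
        (∀ σ ∈ T, ∃ φ : Adj L 0, ∀ S : L.Structure ℕ,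
          @FirstOrder.Language.Sentence.Realize L ℕ S σ ↔ Holds S φ) →
        InfinitaryDichotomy L T Ψ) ∧
    (∀ P : (n k : ℕ) → (Fin n → Fin k) → Prop,
      (∀ (n k : ℕ) (h : n ≤ k), P n k (suffix h)) →
        ((∀ (n k : ℕ) (f : Fin n → Fin k), P n k f → Adjacent f) → ConjectureForWords P) ∧
        ((∃ (n k : ℕ) (f : Fin n → Fin k), P n k f ∧ ¬ Adjacent f) →
          (ConjectureForWords P ↔ FullConjecture))) := by
  refine ⟨positive, fun P hP => ⟨fun hA L hL _ T hT => ?_, ?_⟩⟩
  · have h1 := positive L hL inferInstance T ∅ Set.countable_empty fun σ hσ => by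
      obtain ⟨ψ, hψ⟩ := exists_adj hA σ (hT σ hσ)
      refine ⟨ψ, fun S => ?_⟩
      have key : ∀ (a b : Empty → ℕ) (a' b' : Fin 0 → ℕ),
          (@FirstOrder.Language.BoundedFormula.Realize L ℕ S _ _ σ a a' ↔
            @FirstOrder.Language.BoundedFormula.Realize L ℕ S _ _ σ b b') := by
        intro a b a' b'
        rw [Subsingleton.elim a b, Subsingleton.elim a' b']
      exact (key _ _ _ _).trans (hψ S _)
    rcases h1 with ⟨g, hg⟩ | ⟨f, h1, h2, h3⟩
    · exact Or.inl ⟨g, fun S hS => hg S hS fun ψ hψ => absurd hψ (Set.notMem_empty _)⟩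
    · exact Or.inr ⟨f, fun x => (h1 x).1, h2, h3, fun n F => isEmptyElim F⟩
  · rintro ⟨n, k, f, hf, hna⟩
    exact ⟨fun h L hL T => sharp hP f hf hna h L hL T, fun h L hL _ T _ => h L hL T⟩

end Pool.Agent.Results.MP_5df2c5_lc.AdjacentFragment
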