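import Pool.Agent.H2.VC.GoodOf
import Pool.Agent.H2.VC.Sharp
import Pool.Agent.H2.TR.Cod

set_option autoImplicit false

/-!
Vaught's conjecture, perfect-set form, for trees, ultrametric spaces and, more generally, towers of
semilinear preorders, with countably many isomorphisms between parts of them, and for countable
subsets of real trees with countably many isometries between parts of them.
-/

namespace Pool.Agent.Results.MP_5df2c5_lc.IsomorphismsBetweenParts

open FirstOrder
open Pool.Agent.TH686.FO (L2 R2)

/-- Vaught's conjecture, perfect-set form, for the theory `T` in the language `L` (the body of the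
frozen statement): the models with universe `ℕ` fall into countably many isomorphism classes, or
some continuous family of models, indexed by the Cantor space, consists of pairwise
non-isomorphic models. -/
def Dichotomy (L : FirstOrder.Language.{0, 0}) (T : L.Theory) : Prop :=
  (∃ g : ℕ → L.Structure ℕ, ∀ S : L.Structure ℕ,
      @FirstOrder.Language.Theory.Model L ℕ S T →
        ∃ n : ℕ, Nonempty (@FirstOrder.Language.Equiv L ℕ ℕ S (g n))) ∨
  (∃ f : (ℕ → Bool) → L.Structure ℕ,
      (∀ x : ℕ → Bool, @FirstOrder.Language.Theory.Model L ℕ (f x) T) ∧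
      (∀ x y : ℕ → Bool,
          Nonempty (@FirstOrder.Language.Equiv L ℕ ℕ (f x) (f y)) → x = y) ∧
      (∀ (n : ℕ) (R : L.Relations n) (a : Fin n → ℕ),
          IsClopen {x : ℕ → Bool | @FirstOrder.Language.Structure.RelMap L ℕ (f x) n R a}) ∧
      (∀ (n : ℕ) (F : L.Functions n) (a : Fin n → ℕ) (b : ℕ),
          IsOpen {x : ℕ → Bool | @FirstOrder.Language.Structure.funMap L ℕ (f x) n F a = b}))

/-- Vaught's conjecture for all first-order theories in all countable languages (the frozen
statement). -/
def FullConjecture : Prop :=
  ∀ L : FirstOrder.Language.{0, 0}, Countable L.Symbols → ∀ T : L.Theory, Dichotomy L T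

/-- Relational structures on `ℕ` with relations of arities `a 0, a 1, ...`. -/
abbrev Str (a : ℕ → ℕ) : Type := (i : ℕ) → (Fin (a i) → ℕ) → Bool

/-- Structures with further unary predicates. -/
abbrev UStr (a : ℕ → ℕ) : Type := Str a × (ℕ → ℕ → Bool)

/-- Isomorphism of structures with unary predicates. -/
def UIso {a : ℕ → ℕ} (x y : UStr a) : Prop :=
  ∃ σ : Equiv.Perm ℕ, (∀ (i : ℕ) (v : Fin (a i) → ℕ), y.1 i (⇑σ ∘ v) = x.1 i v) ∧
    ∀ i u, y.2 i (σ u) = x.2 i u

/-- Vaught's conjecture, in perfect-set form, for the expansions of members of `V` by countably many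
unary predicates: every isomorphism-invariant Borel class `B` of such expansions has countably many
isomorphism types, or there is a continuous family of pairwise non-isomorphic members of `B`
indexed by the Cantor space. -/
def UVaught {a : ℕ → ℕ} (V : Str a → Prop) : Prop :=
  ∀ B : Set (UStr a), MeasurableSet B → (∀ x y, UIso x y → (x ∈ B ↔ y ∈ B)) →
    (∀ x ∈ B, V x.1) →
    (∃ f : ℕ → UStr a, ∀ x ∈ B, ∃ n, UIso (f n) x) ∨
    (∃ g : (ℕ → Bool) → UStr a, Continuous g ∧ (∀ c, g c ∈ B) ∧
      ∀ c d, UIso (g c) (g d) → c = d)

/-- Semilinear preorders: the elements below an element are pairwise comparable. (Semilinear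
orders, that is trees and forests, and equivalence relations are examples.) -/
structure Semilinear (s : ℕ → ℕ → Prop) : Prop where
  refl : ∀ u, s u u
  trans : ∀ u v w, s u v → s v w → s u w
  semi : ∀ u v w, s u w → s v w → s u v ∨ s v u

/-- The equivalence relation of the preorder `s`. -/
def Equi (s : ℕ → ℕ → Prop) (u v : ℕ) : Prop := s u v ∧ s v u

/-- `s` is finer than `t`: it is contained in the equivalence relation of `t`. -/
def Finer (s t : ℕ → ℕ → Prop) : Prop := ∀ u v, s u v → Equi t u v

/-- A tower of semilinear preorders, the levels: any two of them are equal, or one of them is finer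
than the other. -/
structure Tower {ι : Type} (s : ι → ℕ → ℕ → Prop) : Prop where
  semilinear : ∀ i, Semilinear (s i)
  chain : ∀ i k, s i = s k ∨ Finer (s i) (s k) ∨ Finer (s k) (s i)

/-- `R` is an isomorphism between two parts of the quotient by the equivalence relation of the level
`i`, for this level and all coarser levels `k`: it is saturated for the equivalence relation of the
level `i`, it preserves and reflects the preorders `k`, and its domain and its range are closed
downwards in them, up to equivalence (which is void if `k` is an equivalence relation). -/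
structure PartIso {ι : Type} (s : ι → ℕ → ℕ → Prop) (i : ι) (R : ℕ → ℕ → Prop) : Prop where
  saturated : ∀ u v u' v', R u v → Equi (s i) u u' → Equi (s i) v v' → R u' v'
  iso : ∀ k, (s i = s k ∨ Finer (s i) (s k)) →
    ∀ u v u' v', R u v → R u' v' → (s k u u' ↔ s k v v')
  dom : ∀ k, (s i = s k ∨ Finer (s i) (s k)) →
    ∀ u v w, R u v → s k w u → ∃ u' v', Equi (s k) w u' ∧ R u' v'
  ran : ∀ k, (s i = s k ∨ Finer (s i) (s k)) →
    ∀ u v w, R u v → s k w v → ∃ u' v', Equi (s k) w v' ∧ R u' v'

/-- The interpretation of the binary relation symbol `R`. -/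
def Rel {L : FirstOrder.Language.{0, 0}} (S : L.Structure ℕ) (R : L.Relations 2) (u v : ℕ) : Prop :=
  @FirstOrder.Language.Structure.RelMap L ℕ S 2 R ![u, v]

/-- The levels: equality and the interpretations of the symbols in `lev`. -/
def level {L : FirstOrder.Language.{0, 0}} (S : L.Structure ℕ) {lev : Set (L.Relations 2)} :
    Option lev → ℕ → ℕ → Prop
  | none => Eq
  | some Q => Rel S Q.1

/-- The interpretation of a binary relation symbol, or the graph of a unary function symbol. -/
def graph {L : FirstOrder.Language.{0, 0}} (S : L.Structure ℕ) :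
    L.Relations 2 ⊕ L.Functions 1 → ℕ → ℕ → Prop
  | Sum.inl R => Rel S R
  | Sum.inr F => fun u v => @FirstOrder.Language.Structure.funMap L ℕ S 1 F ![u] = v

/-- The levels of a structure in `Str a`: equality and the relations with the numbers in `lev`. -/
def levels {a : ℕ → ℕ} (x : Str a) {lev : Set ℕ} : Option lev → ℕ → ℕ → Prop
  | none => Eq
  | some k => fun u v => x k.1 (fun j => if j.val = 0 then u else v) = true

/-- Tree metrics on `ℕ`: metrics with the four point condition, which contains the triangle
inequality. These are the metrics of the countable subsets of real trees; examples are ultrametrics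
and the path metrics of trees. -/
structure TreeMetric (d : ℕ → ℕ → ℝ) : Prop where
  zero : ∀ u v, d u v = 0 ↔ u = v
  symm : ∀ u v, d u v = d v u
  four : ∀ u v w z, d u v + d w z ≤ max (d u w + d v z) (d u z + d v w)

/-- `R` is (the graph of) an isometry between two subsets. -/
def PartialIsometry (d : ℕ → ℕ → ℝ) (R : ℕ → ℕ → Prop) : Prop :=
  ∀ u v u' v', R u v → R u' v' → d u u' = d v v'

/-- `l` is (the reflexive form of) a forest order of height at most two, and `e` is the graph of an
involution without fixed points of the set of the elements which are not minimal. -/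
structure ForestWithInvolution (l e : ℕ → ℕ → Prop) : Prop where
  semilinear : Semilinear l
  antisymm : ∀ u v, l u v → l v u → u = v
  height : ∀ u v w, l u v → l v w → u = v ∨ v = w
  symm : ∀ u v, e u v → e v u
  unique : ∀ u v w, e u v → e u w → v = w
  domain : ∀ u, (∃ v, e u v) ↔ ∃ v, l v u ∧ v ≠ u
  irrefl : ∀ u, ¬ e u u

/-- `l` is an equivalence relation, and `e` is the graph of an idempotent function which maps
equivalent elements to equivalent elements. -/
structure EquivalenceWithMap (l e : ℕ → ℕ → Prop) : Prop where
  equivalence : Equivalence l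
  function : ∀ u, ∃! v, e u v
  idempotent : ∀ u v, e u v → e v v
  preserves : ∀ u v u' v', l u v → e u u' → e v v' → l u' v'

open Pool.Agent.H2.VC
open Pool.Agent.W889.FO.St0 (RF LF)

private theorem good_fam {ι : Type} {s : ι → ℕ → ℕ → Prop} {K : ℕ → Kd} {x : ZB}
    (τ : Option ℕ → ι) (hτ : ∀ e, Lr K x e = s (τ e)) (h1 : Tower s)
    (h2 : ∀ j e, K j = Kd.mp e → PartIso s (τ e) (Re x j))
    (h4 : ∀ i, K i = Kd.una → ∀ m n, x.1 i m n = x.1 i m 0) : Good K x :=
  good_of τ hτ (fun i => ⟨(h1.semilinear i).refl, (h1.semilinear i).trans, (h1.semilinear i).semi⟩)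
    h1.chain (fun j e he => ⟨(h2 j e he).saturated, fun k hk =>
      ⟨(h2 j e he).iso k hk, (h2 j e he).dom k hk, (h2 j e he).ran k hk⟩⟩) h4

open Classical in
/-- the kinds of the relations -/
private noncomputable def kd (a : ℕ → ℕ) (lev : Set ℕ) (lv : ℕ → Option lev) (i : ℕ) : Kd :=
  if i ∈ lev then Kd.lev else if a i = 2 then Kd.mp ((lv i).map Subtype.val) else Kd.una

private theorem good_str {a : ℕ → ℕ} (ha : ∀ i, a i ≤ 2) {lev : Set ℕ} {lv : ℕ → Option lev}
    {x : Str a} (h1 : Tower (levels x (lev := lev)))
    (h2 : ∀ i ∉ lev, a i = 2 → PartIso (levels x) (lv i)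
      fun u v => x i (fun j => if j.val = 0 then u else v) = true) : VG (kd a lev lv) a x := by
  classical
  have hk1 : ∀ k, kd a lev lv k = Kd.lev ↔ k ∈ lev := by
    intro k
    unfold kd
    by_cases hk : k ∈ lev
    · rw [if_pos hk]
      exact iff_of_true rfl hk
    · rw [if_neg hk]
      split_ifs
      · exact iff_of_false (by simp) hk
      · exact iff_of_false (by simp) hk
  let τ : Option ℕ → Option lev := fun e => match e with
    | none => none
    | some k => if h : k ∈ lev then some ⟨k, h⟩ else none
  have hτ : ∀ e, Lr (kd a lev lv) (bn x, fun _ _ => false) e = levels x (τ e) := by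
    intro e
    cases e with
    | none => rfl
    | some k =>
      funext m n
      show ((kd a lev lv k = Kd.lev ∧ Re _ k m n) ∨ (kd a lev lv k ≠ Kd.lev ∧ m = n)) =
        levels x (if h : k ∈ lev then some ⟨k, h⟩ else none) m n
      by_cases hk : k ∈ lev
      · rw [dif_pos hk]
        refine propext ⟨?_, fun h => Or.inl ⟨(hk1 k).2 hk, h⟩⟩
        rintro (h | h)
        · exact h.2
        · exact absurd ((hk1 k).2 hk) h.1
      · rw [dif_neg hk]
        refine propext ⟨?_, fun h => Or.inr ⟨fun h' => hk ((hk1 k).1 h'), h⟩⟩
        rintro (h | h)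
        · exact absurd ((hk1 k).1 h.1) hk
        · exact h.2
  have hτ2 : ∀ o : Option lev, τ (o.map Subtype.val) = o := by
    intro o
    cases o with
    | none => rfl
    | some k =>
      show (if h : k.1 ∈ lev then some (⟨k.1, h⟩ : lev) else none) = some k
      rw [dif_pos k.2]
  refine good_fam τ hτ h1 (fun j e he => ?_) (fun i hi m n => ?_)
  · unfold kd at he
    split_ifs at he with h3 h4
    obtain rfl := Kd.mp.inj he
    rw [hτ2]
    exact h2 j h3 h4
  · unfold kd at hi
    split_ifs at hi with h3 h4
    have h5 : a i ≤ 1 := by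
      have := ha i
      omega
    show x i (pr m n) = x i (pr m 0)
    congr 1
    funext j
    have hj := j.isLt
    unfold pr
    rw [if_pos (by omega), if_pos (by omega)]

private theorem pr_two {m : ℕ} (hm : m = 2) (u v : ℕ) :
    (fun j : Fin m => if j.val = 0 then u else v) = fun k => ![u, v] (Fin.cast hm k) := by
  subst hm
  funext k
  fin_cases k <;> rfl

/-- **Theorem.** (1) Vaught's conjecture, perfect-set form, holds for every first-order theory in a
countable language with relation symbols of arity at most two and function symbols of arity at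
most one if, for some set `lev` of binary relation symbols, in each model with universe `ℕ` the
equality and the symbols in `lev` are interpreted by a tower of semilinear preorders, and the
other binary relation symbols and the unary function symbols are interpreted by isomorphisms
between parts at given levels. (2) The same for the Borel classes of such structures, with
countably many unary predicates. (3) The hypothesis holds for semilinear orders and isomorphisms
between downward closed subsets of them. (4) It holds for chains of equivalence relations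
(ultrametric spaces) and the isomorphisms between arbitrary subsets of them. (5) The Borel form,
with countably many unary predicates, holds for the tree metrics `d` on `ℕ`, given by the relations
`d u v < r` for rational `r`, with countably many isometries between arbitrary subsets. (6) The full
conjecture is equivalent to its restriction to the complete theories of forests of height at most
two with one involution of the set of the elements which are not minimal. (7) The full conjecture
is equivalent to its restriction to the complete theories of one equivalence relation with one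
idempotent function which maps equivalent elements to equivalent elements. -/
theorem result :
    (∀ L : FirstOrder.Language.{0, 0}, Countable L.Symbols →
      (∀ n, 2 < n → IsEmpty (L.Relations n)) → (∀ n, 1 < n → IsEmpty (L.Functions n)) →
      ∀ (lev : Set (L.Relations 2)) (lv : L.Relations 2 ⊕ L.Functions 1 → Option lev)
        (T : L.Theory), (∀ S : L.Structure ℕ, @FirstOrder.Language.Theory.Model L ℕ S T →
          Tower (level S (lev := lev)) ∧ (∀ R : L.Relations 2, R ∉ lev →
            PartIso (level S) (lv (Sum.inl R)) (graph S (Sum.inl R))) ∧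
          ∀ F : L.Functions 1, PartIso (level S) (lv (Sum.inr F)) (graph S (Sum.inr F))) →
        Dichotomy L T) ∧
    (∀ a : ℕ → ℕ, (∀ i, a i ≤ 2) → ∀ (lev : Set ℕ) (lv : ℕ → Option lev),
      UVaught fun x : Str a => Tower (levels x (lev := lev)) ∧ ∀ i ∉ lev, a i = 2 →
        PartIso (levels x) (lv i) fun u v => x i (fun j => if j.val = 0 then u else v) = true) ∧
    (∀ le R : ℕ → ℕ → Prop, Semilinear le → (∀ u v, le u v → le v u → u = v) →
      (∀ u v u' v', R u v → R u' v' → ((u = u' ↔ v = v') ∧ (le u u' ↔ le v v'))) →
      (∀ u v w, R u v → le w u → ∃ z, R w z) → (∀ u v w, R u v → le w v → ∃ z, R z w) →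
      Tower (fun o : Option Unit => o.elim Eq fun _ => le) ∧
        PartIso (fun o : Option Unit => o.elim Eq fun _ => le) none R) ∧
    (∀ (E : ℕ → ℕ → ℕ → Prop) (R : ℕ → ℕ → Prop), (∀ i, Equivalence (E i)) →
      (∀ i k, (∀ u v, E i u v → E k u v) ∨ ∀ u v, E k u v → E i u v) →
      (∀ u v u' v', R u v → R u' v' → ((u = u' ↔ v = v') ∧ ∀ i, E i u u' ↔ E i v v')) →
      Tower (fun o : Option ℕ => o.elim Eq E) ∧ PartIso (fun o : Option ℕ => o.elim Eq E) none R) ∧
    (∀ q : ℕ → ℚ, Function.Surjective q → UVaught fun x : Str fun _ => 2 =>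
      ∃ d : ℕ → ℕ → ℝ, TreeMetric d ∧
        (∀ i u v, x (2 * i) (fun j => if j.val = 0 then u else v) = true ↔ d u v < q i) ∧
        ∀ i, PartialIsometry d fun u v =>
          x (2 * i + 1) (fun j => if j.val = 0 then u else v) = true) ∧
    (FullConjecture ↔ ∀ T : L2.Theory, T.IsComplete →
      (∀ S : L2.Structure ℕ, @FirstOrder.Language.Theory.Model L2 ℕ S T →
        ForestWithInvolution (Rel S R2.fst) (Rel S R2.snd)) → Dichotomy L2 T) ∧
    (FullConjecture ↔ ∀ T : L2.Theory, T.IsComplete →
      (∀ S : L2.Structure ℕ, @FirstOrder.Language.Theory.Model L2 ℕ S T →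
        EquivalenceWithMap (Rel S R2.fst) (Rel S R2.snd)) → Dichotomy L2 T) := by
  classical
  refine ⟨fun L hL hR hF lev lv T hT => ?_, fun a ha lev lv => ?_, ?_, ?_, fun q hq => ?_, ?_, ?_⟩
  · refine Pool.Agent.K7.H41.NC.fo_of hL T fun e he => ?_
    have hn := fun p => Pool.Agent.R617.VT.ar_e he p
    have hcode : ∀ R : L.Relations 2, Pool.Agent.R617.VT.ar e (e ⟨2, RF.rel R⟩) = 2 :=
      fun R => hn ⟨2, RF.rel R⟩
    let lev' : Set ℕ := {i | ∃ Q ∈ lev, e ⟨2, RF.rel Q⟩ = i}
    let cv : Option lev → Option lev' := fun o => o.map fun Q => ⟨e ⟨2, RF.rel Q.1⟩, Q.1, Q.2, rfl⟩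
    -- the level of a relation of the code
    let lv' : ℕ → Option lev' := fun i =>
      if h : ∃ R : L.Relations 2, e ⟨2, RF.rel R⟩ = i then cv (lv (Sum.inl h.choose))
      else if h : ∃ F : L.Functions 1, e ⟨2, RF.fn F⟩ = i then cv (lv (Sum.inr h.choose))
      else none
    have har : ∀ i, Pool.Agent.R617.VT.ar e i ≤ 2 := by
      intro i
      by_cases hi : ∃ p, e p = i
      · obtain ⟨⟨n, P⟩, rfl⟩ := hi
        rw [hn]
        show n ≤ 2
        cases P with
        | rel R =>
          by_contra hc
          exact (hR _ (by omega)).elim R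
        | @fn m F =>
          by_contra hc
          exact (hF m (by omega)).elim F
      · rw [Pool.Agent.R617.VT.ar_not hi]
        omega
    refine ⟨VG (kd (Pool.Agent.R617.VT.ar e) lev' lv') (Pool.Agent.R617.VT.ar e), vcu _ har,
      fun x hx hW hM => ?_⟩
    obtain ⟨h1, h2, h3⟩ := hT _ hM
    set S := Pool.Agent.W889.FO.St0.D (Pool.Agent.R617.VT.dc he x) with hS
    have hrel : ∀ R : L.Relations 2, (fun u v => x (e ⟨2, RF.rel R⟩)
        (fun j => if j.val = 0 then u else v) = true) = Rel S R := by
      intro R
      funext u v
      rw [pr_two (hcode R) u v]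
      rfl
    have hfun : ∀ F : L.Functions 1, (fun u v => x (e ⟨2, RF.fn F⟩)
        (fun j => if j.val = 0 then u else v) = true) = graph S (Sum.inr F) := by
      intro F
      funext u v
      refine propext ?_
      show _ ↔ @FirstOrder.Language.Structure.funMap L ℕ S 1 F ![u] = v
      rw [Pool.Agent.W889.FO.St0.fun_iff hW F ![u] v]
      have e1 : (Fin.snoc (α := fun _ => ℕ) ![u] v : Fin 2 → ℕ) = ![u, v] := by
        funext j
        fin_cases j <;> rfl
      show x _ _ = true ↔ @FirstOrder.Language.Structure.RelMap (LF L) ℕ
        (Pool.Agent.R617.VT.dc he x) 2 (RF.fn F) _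
      rw [e1, Pool.Agent.R617.VT.rel_dc, pr_two (hn ⟨2, RF.fn F⟩) u v]
    -- the levels of the code are the levels of the structure
    have hlev : ∀ o : Option lev, levels x (cv o) = level S o := by
      intro o
      cases o with
      | none => rfl
      | some Q => exact hrel Q.1
    have hsur : ∀ o' : Option lev', ∃ o, cv o = o' := by
      intro o'
      cases o' with
      | none => exact ⟨none, rfl⟩
      | some k =>
        obtain ⟨k, Q, hQ, rfl⟩ := k
        exact ⟨some ⟨Q, hQ⟩, rfl⟩
    have hpart : ∀ (o : Option lev) (R : ℕ → ℕ → Prop), PartIso (level S) o R →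
        PartIso (levels x (lev := lev')) (cv o) R := by
      intro o R h
      refine ⟨?_, fun k hk => ?_, fun k hk => ?_, fun k hk => ?_⟩
      · rw [hlev]
        exact h.saturated
      · obtain ⟨k, rfl⟩ := hsur k
        rw [hlev, hlev] at hk
        rw [hlev]
        exact h.iso k hk
      · obtain ⟨k, rfl⟩ := hsur k
        rw [hlev, hlev] at hk
        rw [hlev]
        exact h.dom k hk
      · obtain ⟨k, rfl⟩ := hsur k
        rw [hlev, hlev] at hk
        rw [hlev]
        exact h.ran k hk
    refine good_str har ⟨fun i => ?_, fun i k => ?_⟩ fun i hi hi2 => ?_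
    · obtain ⟨i, rfl⟩ := hsur i
      rw [hlev]
      exact h1.semilinear i
    · obtain ⟨i, rfl⟩ := hsur i
      obtain ⟨k, rfl⟩ := hsur k
      rw [hlev, hlev]
      exact h1.chain i k
    · by_cases hp : ∃ p, e p = i
      · obtain ⟨⟨n, P⟩, rfl⟩ := hp
        have hn2 : n = 2 := (hn ⟨n, P⟩).symm.trans hi2
        cases P with
        | rel R =>
          subst hn2
          have hRl : R ∉ lev := fun hc => hi ⟨R, hc, rfl⟩
          have hex : ∃ R' : L.Relations 2, e ⟨2, RF.rel R'⟩ = e ⟨2, RF.rel R⟩ := ⟨R, rfl⟩
          have hch : hex.choose = R := by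
            have h5 := he hex.choose_spec
            exact RF.rel.inj (eq_of_heq (Sigma.mk.inj_iff.1 h5).2)
          have h7 : lv' (e ⟨2, RF.rel R⟩) = cv (lv (Sum.inl R)) := by
            show (if h : ∃ R' : L.Relations 2, e ⟨2, RF.rel R'⟩ = e ⟨2, RF.rel R⟩ then
              cv (lv (Sum.inl h.choose)) else _) = _
            rw [dif_pos hex, hch]
          rw [h7, hrel]
          exact hpart _ _ (h2 R hRl)
        | @fn m F =>
          obtain rfl : m = 1 := by omega
          have hno : ¬ ∃ R' : L.Relations 2, e ⟨2, RF.rel R'⟩ = e ⟨2, RF.fn F⟩ := by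
            rintro ⟨R', h5⟩
            have h6 := he h5
            simp at h6
          have hex : ∃ F' : L.Functions 1, e ⟨2, RF.fn F'⟩ = e ⟨2, RF.fn F⟩ := ⟨F, rfl⟩
          have hch : hex.choose = F := by
            have h5 := he hex.choose_spec
            exact RF.fn.inj (eq_of_heq (Sigma.mk.inj_iff.1 h5).2)
          have h7 : lv' (e ⟨2, RF.fn F⟩) = cv (lv (Sum.inr F)) := by
            show (if h : ∃ R' : L.Relations 2, e ⟨2, RF.rel R'⟩ = e ⟨2, RF.fn F⟩ then
              cv (lv (Sum.inl h.choose)) else if h : ∃ F' : L.Functions 1,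
                e ⟨2, RF.fn F'⟩ = e ⟨2, RF.fn F⟩ then cv (lv (Sum.inr h.choose)) else none) = _
            rw [dif_neg hno, dif_pos hex, hch]
          have h8 := hpart _ _ (h3 F)
          rw [← hfun, ← h7] at h8
          exact h8
      · exact absurd ((Pool.Agent.R617.VT.ar_not hp).symm.trans hi2) (by omega)
  · intro B hB hi hV
    exact vcu (kd a lev lv) ha B hB hi fun x hx => good_str ha (hV x hx).1 (hV x hx).2
  · intro le R h1 h2 h3 h4 h5
    have hfin : ∀ k : Option Unit, ∀ u v, (k.elim Eq fun _ => le) u v → u = v ∨ le u v := by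
      intro k u v h
      cases k with
      | none => exact Or.inl h
      | some _ => exact Or.inr h
    refine ⟨⟨fun i => ?_, fun i k => ?_⟩, ⟨?_, fun k _ => ?_, fun k _ => ?_, fun k _ => ?_⟩⟩
    · cases i with
      | none => exact ⟨fun _ => rfl, fun _ _ _ k1 k2 => k1.trans k2, fun _ _ _ k1 k2 =>
          Or.inl (k1.trans k2.symm)⟩
      | some _ => exact h1
    · cases i with
      | none =>
        cases k with
        | none => exact Or.inl rfl
        | some _ =>
          refine Or.inr (Or.inl fun u v huv => ?_)
          have huv' : u = v := huv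
          subst huv'
          exact ⟨h1.refl u, h1.refl u⟩
      | some _ =>
        cases k with
        | none =>
          refine Or.inr (Or.inr fun u v huv => ?_)
          have huv' : u = v := huv
          subst huv'
          exact ⟨h1.refl u, h1.refl u⟩
        | some _ => exact Or.inl rfl
    · rintro u v u' v' k1 ⟨k2, -⟩ ⟨k3, -⟩
      have k2' : u = u' := k2
      have k3' : v = v' := k3
      rw [← k2', ← k3']
      exact k1
    · intro u v u' v' k1 k2
      cases k with
      | none => exact (h3 u v u' v' k1 k2).1
      | some _ => exact (h3 u v u' v' k1 k2).2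
    · intro u v w k1 k2
      rcases hfin k w u k2 with rfl | k3
      · refine ⟨w, v, ?_, k1⟩
        cases k with
        | none => exact ⟨rfl, rfl⟩
        | some _ => exact ⟨h1.refl _, h1.refl _⟩
      · obtain ⟨z, hz⟩ := h4 u v w k1 k3
        refine ⟨w, z, ?_, hz⟩
        cases k with
        | none => exact ⟨rfl, rfl⟩
        | some _ => exact ⟨h1.refl _, h1.refl _⟩
    · intro u v w k1 k2
      rcases hfin k w v k2 with rfl | k3
      · refine ⟨u, w, ?_, k1⟩
        cases k with
        | none => exact ⟨rfl, rfl⟩
        | some _ => exact ⟨h1.refl _, h1.refl _⟩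
      · obtain ⟨z, hz⟩ := h5 u v w k1 k3
        refine ⟨z, w, ?_, hz⟩
        cases k with
        | none => exact ⟨rfl, rfl⟩
        | some _ => exact ⟨h1.refl _, h1.refl _⟩
  · intro E R h1 h2 h3
    have heq : ∀ k : Option ℕ, Equivalence (k.elim Eq E) := by
      intro k
      cases k with
      | none => exact ⟨fun _ => rfl, fun h => h.symm, fun h h' => h.trans h'⟩
      | some k => exact h1 k
    have hfine : ∀ i k : Option ℕ, (∀ u v, (i.elim Eq E) u v → (k.elim Eq E) u v) →
        Finer (i.elim Eq E) (k.elim Eq E) := fun i k h u v huv =>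
      ⟨h u v huv, (heq k).symm (h u v huv)⟩
    refine ⟨⟨fun i => ⟨(heq i).refl, fun _ _ _ k1 k2 => (heq i).trans k1 k2, fun _ _ _ k1 k2 =>
      Or.inl ((heq i).trans k1 ((heq i).symm k2))⟩, fun i k => Or.inr ?_⟩,
      ⟨?_, fun k _ => ?_, fun k _ => ?_, fun k _ => ?_⟩⟩
    · cases i with
      | none =>
        refine Or.inl (hfine _ _ fun u v huv => ?_)
        have huv' : u = v := huv
        subst huv'
        exact (heq k).refl u
      | some i =>
        cases k with
        | none =>
          refine Or.inr (hfine _ _ fun u v huv => ?_)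
          have huv' : u = v := huv
          subst huv'
          exact (heq (some i)).refl u
        | some k =>
          rcases h2 i k with h | h
          · exact Or.inl (hfine (some i) (some k) h)
          · exact Or.inr (hfine (some k) (some i) h)
    · rintro u v u' v' k1 ⟨k2, -⟩ ⟨k3, -⟩
      have k2' : u = u' := k2
      have k3' : v = v' := k3
      rw [← k2', ← k3']
      exact k1
    · intro u v u' v' k1 k2
      cases k with
      | none => exact (h3 u v u' v' k1 k2).1
      | some k => exact (h3 u v u' v' k1 k2).2 k
    · intro u v w k1 k2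
      exact ⟨u, v, ⟨k2, (heq k).symm k2⟩, k1⟩
    · intro u v w k1 k2
      exact ⟨u, v, ⟨k2, (heq k).symm k2⟩, k1⟩
  · intro B hB hi hV
    refine Pool.Agent.H2.TR.vcu_tree hq B hB hi fun x hx => ?_
    obtain ⟨d, h1, h2, h3⟩ := hV x hx
    exact ⟨d, ⟨h1.zero, h1.symm, h1.four⟩, h2, h3⟩
  · refine ⟨fun h T _ _ => h L2 Pool.Agent.TH686.FO.countable_L2s T, fun h L hL T => ?_⟩
    exact Sh.full_fst (fun T' hT' hS => h T' hT' fun S hm => by
      have h1 := hS S hm
      exact ⟨⟨h1.refl, h1.trans, h1.semi⟩, h1.anti, h1.height, h1.symm, h1.fn, h1.dom,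
        h1.fix⟩) L hL T
  · refine ⟨fun h T _ _ => h L2 Pool.Agent.TH686.FO.countable_L2s T, fun h L hL T => ?_⟩
    exact Sh.full_eqf (fun T' hT' hS => h T' hT' fun S hm => by
      have h1 := hS S hm
      exact ⟨⟨h1.refl, fun {u v} => h1.symm u v, fun {u v w} => h1.trans u v w⟩, h1.fn, h1.idem,
        h1.pres⟩) L hL T

end Pool.Agent.Results.MP_5df2c5_lc.IsomorphismsBetweenParts
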