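import Pool.Agent.H2.LP.Fin
import Pool.Agent.H2.CO.Asm

set_option autoImplicit false

/-!
Vaught's conjecture, perfect-set form, for structures with polymorphisms of a linear order: it is true
for the ordered structures with a majority polymorphism, also piecewise, if the order is definable
from parameters, or if only its betweenness relation, circular order or separation relation is given;
it is the general case for the ordered structures with a near-unanimity polymorphism with four
arguments. Classification of all sets of operations which are defined from the order.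
-/

namespace Pool.Agent.Results.MP_5df2c5_lc.OrderPolymorphisms

open FirstOrder
open Pool.Agent.TH686.FO (L2 R2)
open Pool.Agent.H2.LP (L23 R23)

/-- Vaught's conjecture, perfect-set form, for the theory `T` in the language `L` (the body of the
frozen statement): the models with universe `ℕ` fall into countably many isomorphism classes, or
some continuous family of models, indexed by the Cantor space, consists of pairwise
non-isomorphic models. -/
def Dichotomy (L : FirstOrder.Language.{0, 0}) (T : L.Theory) : Prop :=
  (∃ g : ℕ → L.Structure ℕ, ∀ S : L.Structure ℕ,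
      @FirstOrder.Language.Theory.Model L ℕ S T →
        ∃ n : ℕ, Nonempty (@FirstOrder.Language.Equiv L ℕ ℕ S (g n))) ∨
  (∃ f : (ℕ → Bool) → L.Structure ℕ,
      (∀ x : ℕ → Bool, @FirstOrder.Language.Theory.Model L ℕ (f x) T) ∧
      (∀ x y : ℕ → Bool,
          Nonempty (@FirstOrder.Language.Equiv L ℕ ℕ (f x) (f y)) → x = y) ∧
      (∀ (n : ℕ) (R : L.Relations n) (a : Fin n → ℕ),
          IsClopen {x : ℕ → Bool | @FirstOrder.Language.Structure.RelMap L ℕ (f x) n R a}) ∧
      (∀ (n : ℕ) (F : L.Functions n) (a : Fin n → ℕ) (b : ℕ),
          IsOpen {x : ℕ → Bool | @FirstOrder.Language.Structure.funMap L ℕ (f x) n F a = b}))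

/-- Vaught's conjecture for all first-order theories in all countable languages (the frozen
statement). -/
def FullConjecture : Prop :=
  ∀ L : FirstOrder.Language.{0, 0}, Countable L.Symbols → ∀ T : L.Theory, Dichotomy L T

/-- Relational structures on `ℕ` with relations of arities `a 0, a 1, ...`. -/
abbrev Str (a : ℕ → ℕ) : Type := (i : ℕ) → (Fin (a i) → ℕ) → Bool

/-- Isomorphism. -/
def Iso {a : ℕ → ℕ} (x y : Str a) : Prop :=
  ∃ σ : Equiv.Perm ℕ, ∀ (i : ℕ) (v : Fin (a i) → ℕ), y i (⇑σ ∘ v) = x i v

/-- Vaught's conjecture, in perfect-set form, for all isomorphism-invariant Borel classes of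
members of `V`. -/
def BorelVaught {a : ℕ → ℕ} (V : Str a → Prop) : Prop :=
  ∀ B : Set (Str a), MeasurableSet B → (∀ x y, Iso x y → (x ∈ B ↔ y ∈ B)) → (∀ x ∈ B, V x) →
    (∃ f : ℕ → Str a, ∀ x ∈ B, ∃ n, Iso (f n) x) ∨
    (∃ g : (ℕ → Bool) → Str a, Continuous g ∧ (∀ c, g c ∈ B) ∧ ∀ c d, Iso (g c) (g d) → c = d)

/-- The interpretation of a binary relation symbol. -/
def rel {L : FirstOrder.Language.{0, 0}} (S : L.Structure ℕ) (R : L.Relations 2) (u v : ℕ) : Prop :=
  @FirstOrder.Language.Structure.RelMap L ℕ S 2 R ![u, v]

/-- The relation with the number `q`, for `a q = 2`. -/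
def order {a : ℕ → ℕ} (x : Str a) (q u v : ℕ) : Prop :=
  x q (fun j => if j.val = 0 then u else v) = true

/-- Linear orders (reflexive). -/
structure Linear (le : ℕ → ℕ → Prop) : Prop where
  refl : ∀ u, le u u
  antisymm : ∀ u v, le u v → le v u → u = v
  trans : ∀ u v w, le u v → le v w → le u w
  total : ∀ u v, le u v ∨ le v u

/-! ### Polymorphisms -/

/-- The relation `R` is preserved by the operation `m`: if `m` is applied to `r` tuples in `R`,
coordinate by coordinate, then the result is a tuple in `R`. -/
def Preserved {r : ℕ} (m : (Fin r → ℕ) → ℕ) {n : ℕ} (R : (Fin n → ℕ) → Prop) : Prop :=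
  ∀ s : Fin r → Fin n → ℕ, (∀ p, R (s p)) → R fun j => m fun p => s p j

/-- The operation `m` is a polymorphism: all relations are preserved by `m`, and `m` commutes with
all functions. -/
def Polymorphism {L : FirstOrder.Language.{0, 0}} (S : L.Structure ℕ) {r : ℕ}
    (m : (Fin r → ℕ) → ℕ) : Prop :=
  (∀ (n : ℕ) (R : L.Relations n),
    Preserved m fun v => @FirstOrder.Language.Structure.RelMap L ℕ S n R v) ∧
  ∀ (n : ℕ) (F : L.Functions n) (s : Fin r → Fin n → ℕ),
    (@FirstOrder.Language.Structure.funMap L ℕ S n F fun j => m fun p => s p j) =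
      m fun p => @FirstOrder.Language.Structure.funMap L ℕ S n F (s p)

/-- Near-unanimity operations: if all arguments but at most one are equal to `u` then the value is
`u`. With three arguments these are the majority operations. -/
def NearUnanimity {r : ℕ} (m : (Fin r → ℕ) → ℕ) : Prop :=
  ∀ (k : Fin r) (u v : ℕ), m (Function.update (fun _ => u) k v) = u

/-! ### Operations defined from the order -/

/-- Operations with `r` arguments, for all linear orders, which are defined from the order: the
value is one of the arguments, which is determined by the comparisons of the arguments with each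
other. For example the minimum, the maximum, the median, and the `k`-th smallest argument. -/
abbrev Operation (r : ℕ) : Type := (Fin r → Fin r → Bool) → Fin r

open Classical in
/-- The value in the linear order `le`: the argument with the number determined by the comparisons
of the arguments. -/
noncomputable def value (le : ℕ → ℕ → Prop) {r : ℕ} (c : Operation r) (x : Fin r → ℕ) : ℕ :=
  x (c fun i j => decide (le (x i) (x j)))

/-- The value in the linear order with two elements `false`, `true`. -/
def bool {r : ℕ} (c : Operation r) (a : Fin r → Bool) : Bool :=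
  a (c fun i j => !(a i) || a j)

/-- The operation is monotone in all arguments. -/
def Monotone {r : ℕ} (c : Operation r) : Prop :=
  ∀ le : ℕ → ℕ → Prop, Linear le → ∀ x y : Fin r → ℕ, (∀ i, le (x i) (y i)) →
    le (value le c x) (value le c y)

/-- If the value is `true` for three tuples then they are all `true` in some coordinate. -/
def CommonTrue {r : ℕ} (c : Operation r) : Prop :=
  ∀ A B C : Fin r → Bool, bool c A = true → bool c B = true → bool c C = true →
    ∃ i, A i = true ∧ B i = true ∧ C i = true

/-- If the value is `false` for three tuples then they are all `false` in some coordinate. -/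
def CommonFalse {r : ℕ} (c : Operation r) : Prop :=
  ∀ A B C : Fin r → Bool, bool c A = false → bool c B = false → bool c C = false →
    ∃ i, A i = false ∧ B i = false ∧ C i = false

/-- The operation is, on two elements, the minimum of some of the arguments. -/
def Meet {r : ℕ} (c : Operation r) : Prop :=
  ∃ I : Finset (Fin r), ∀ A : Fin r → Bool, bool c A = true ↔ ∀ i ∈ I, A i = true

/-- The operation is, on two elements, the maximum of some of the arguments. -/
def Join {r : ℕ} (c : Operation r) : Prop :=
  ∃ I : Finset (Fin r), ∀ A : Fin r → Bool, bool c A = true ↔ ∃ i ∈ I, A i = true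

/-- The hard sets of operations: they are monotone, and have all the property `CommonTrue` or all
the property `CommonFalse`. -/
def Hard (Γ : Set (Σ r, Operation r)) : Prop :=
  (∀ c ∈ Γ, Monotone c.2) ∧ ((∀ c ∈ Γ, CommonTrue c.2) ∨ ∀ c ∈ Γ, CommonFalse c.2)

/-- The sets of operations which are hard for binary relations: they are monotone, and all are
minima or all are maxima of some of the arguments. -/
def HardBinary (Γ : Set (Σ r, Operation r)) : Prop :=
  (∀ c ∈ Γ, Monotone c.2) ∧ ((∀ c ∈ Γ, Meet c.2) ∨ ∀ c ∈ Γ, Join c.2)

/-- All relation symbols have arity at most two, and all function symbols have arity at most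
one. -/
def Binary (L : FirstOrder.Language.{0, 0}) : Prop :=
  (∀ n, 2 < n → IsEmpty (L.Relations n)) ∧ ∀ n, 1 < n → IsEmpty (L.Functions n)

/-- In all models of `T` with universe `ℕ` the symbol `Q` is a linear order and the operations in
`Γ` are polymorphisms. -/
def Admits {L : FirstOrder.Language.{0, 0}} (Q : L.Relations 2) (Γ : Set (Σ r, Operation r))
    (T : L.Theory) : Prop :=
  ∀ S : L.Structure ℕ, @FirstOrder.Language.Theory.Model L ℕ S T →
    Linear (rel S Q) ∧ ∀ c ∈ Γ, Polymorphism S (value (rel S Q) c.2)

/-- In all models of `T` with universe `ℕ` the symbol `Q` is a linear order and there is a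
near-unanimity polymorphism with `r` arguments. -/
def AdmitsNearUnanimity {L : FirstOrder.Language.{0, 0}} (Q : L.Relations 2) (r : ℕ)
    (T : L.Theory) : Prop :=
  ∀ S : L.Structure ℕ, @FirstOrder.Language.Theory.Model L ℕ S T →
    Linear (rel S Q) ∧ ∃ m : (Fin r → ℕ) → ℕ, NearUnanimity m ∧ Polymorphism S m

/-! ### Relations which are piecewise closed under the median, orders which are not named -/

open Classical in
/-- The minimum. -/
noncomputable def minimum (le : ℕ → ℕ → Prop) (u v : ℕ) : ℕ := if le u v then u else v

open Classical in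
/-- The maximum. -/
noncomputable def maximum (le : ℕ → ℕ → Prop) (u v : ℕ) : ℕ := if le u v then v else u

/-- The median. -/
noncomputable def median (le : ℕ → ℕ → Prop) (u v w : ℕ) : ℕ :=
  maximum le (minimum le u v) (minimum le (maximum le u v) w)

/-- The relation `R` is piecewise closed under the median of the linear order `le`: there are
finitely many cuts of the order (initial segments `I k`) such that `R` contains the coordinatewise
median of any three of its tuples which have the same order type and which are, coordinate by
coordinate, on the same sides of these cuts. -/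
def PiecewiseMedian (le : ℕ → ℕ → Prop) {n : ℕ} (R : (Fin n → ℕ) → Prop) : Prop :=
  ∃ (N : ℕ) (I : Fin N → ℕ → Prop), (∀ k u v, le u v → I k v → I k u) ∧
    ∀ u v w : Fin n → ℕ, R u → R v → R w →
      (∀ j l, (le (u j) (u l) ↔ le (v j) (v l)) ∧ (le (u j) (u l) ↔ le (w j) (w l))) →
      (∀ k j, (I k (u j) ↔ I k (v j)) ∧ (I k (u j) ↔ I k (w j))) →
      R fun j => median le (u j) (v j) (w j)

/-- The strict order. -/
def less (le : ℕ → ℕ → Prop) (u v : ℕ) : Prop := ¬ le v u

/-- `v` is between `u` and `w`. -/
def between (le : ℕ → ℕ → Prop) (u v w : ℕ) : Prop :=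
  (less le u v ∧ less le v w) ∨ (less le w v ∧ less le v u)

/-- The circular order of a linear order. -/
def circle (le : ℕ → ℕ → Prop) (u v w : ℕ) : Prop :=
  (less le u v ∧ less le v w) ∨ (less le v w ∧ less le w u) ∨ (less le w u ∧ less le u v)

/-- The separation relation of the circular order: `u`, `v` separate `w` and `t`. -/
def separate (le : ℕ → ℕ → Prop) (u v w t : ℕ) : Prop :=
  (circle le u w v ∧ circle le v t u) ∨ (circle le u t v ∧ circle le v w u)

/-- The relation with number `0` as a ternary relation, for `a 0 = 3`. -/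
def ternary {a : ℕ → ℕ} (x : Str a) (u v w : ℕ) : Prop :=
  x 0 (fun j => if j.val = 0 then u else if j.val = 1 then v else w) = true

/-- The relation with number `0` as a quaternary relation, for `a 0 = 4`. -/
def quaternary {a : ℕ → ℕ} (x : Str a) (u v w t : ℕ) : Prop :=
  x 0 (fun j => if j.val = 0 then u else if j.val = 1 then v else if j.val = 2 then w else t) = true

/-- All relations but the first one are piecewise closed under the median of the order. -/
def Tame {a : ℕ → ℕ} (x : Str a) (le : ℕ → ℕ → Prop) : Prop :=
  ∀ i, PiecewiseMedian le fun v => x (i + 1) v = true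

open Pool.Agent.H2.LP in
private theorem lin_iff {le : ℕ → ℕ → Prop} : Linear le ↔ Lin le :=
  ⟨fun h => ⟨h.refl, h.antisymm, h.trans, h.total⟩, fun h => ⟨h.refl, h.anti, h.trans, h.total⟩⟩

open Pool.Agent.H2.LP in
private theorem mon_iff {c : Σ r, Operation r} : Monotone c.2 ↔ MonO c :=
  ⟨fun h le hle => h le (lin_iff.2 hle), fun h le hle => h le (lin_iff.1 hle)⟩

open Pool.Agent.H2.CO in
private theorem pm_of {le : ℕ → ℕ → Prop} {n : ℕ} {R : (Fin n → ℕ) → Prop}
    (h : PiecewiseMedian le R) : PM le R := by
  obtain ⟨N, I, h1, h2⟩ := h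
  exact pm_fin I h1 fun u v w hu hv hw k1 k2 k3 k4 =>
    h2 u v w hu hv hw (fun j l => ⟨k1 j l, k2 j l⟩) fun k j => ⟨k3 k j, k4 k j⟩

open Pool.Agent.H533R2.VS in
private theorem bv_of {a : ℕ → ℕ} {V W : Str a → Prop} (hW : VCu W) (h : ∀ x, V x → W x) :
    BorelVaught V :=
  fun B hB hi hV => vs_plain a W hW B hB hi fun x hx => h x (hV x hx)

/-- **Theorem.** (1) Vaught's conjecture, perfect-set form, holds for all theories, in countable
languages with relations and functions of any arities, such that in each model with universe `ℕ` a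
given symbol is a linear order and there is a majority polymorphism (a near-unanimity polymorphism
with three arguments). (2) The same for the Borel classes of such structures. (3) Let `o` assign to
structures and `k` parameters a binary relation, in a Borel and isomorphism-invariant way, for
example by a formula of `L_{omega_1 omega}`. The conjecture holds for the Borel classes of
structures such that, for some parameters, this relation is a linear order and all relations of the
structure are piecewise closed under its median. (4) It holds for the Borel classes of structures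
for which there is a linear order, which is not named, such that the first relation is its
betweenness relation, its circular order or its separation relation, and all other relations are
piecewise closed under its median. (5) With near-unanimity polymorphisms with four arguments it is
the full conjecture, even for complete theories of a linear order with one ternary relation.
(6) Let `Γ` be a set of operations defined from the order. If `Γ` is not hard then Vaught's
conjecture holds for the ordered structures with the polymorphisms `Γ`. If `Γ` is hard then this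
case is equivalent to the full conjecture, even for complete theories of a linear order with one
ternary relation. (7) The same for relations of arity at most two and functions of arity at most
one, where the hard sets are those of minima of some of the arguments and those of maxima of some of
the arguments, and one binary relation besides the order suffices. -/
theorem result :
    (∀ L : FirstOrder.Language.{0, 0}, Countable L.Symbols → ∀ (Q : L.Relations 2) (T : L.Theory),
      AdmitsNearUnanimity Q 3 T → Dichotomy L T) ∧
    (∀ (a : ℕ → ℕ) (q : ℕ), a q = 2 → BorelVaught fun x : Str a => Linear (order x q) ∧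
      ∃ m : (Fin 3 → ℕ) → ℕ, NearUnanimity m ∧ ∀ i, Preserved m fun v => x i v = true) ∧
    (∀ (a : ℕ → ℕ) (k : ℕ) (o : Str a → (Fin k → ℕ) → ℕ → ℕ → Prop),
      (∀ p u v, MeasurableSet {x | o x p u v}) →
      (∀ (x y : Str a) (σ : Equiv.Perm ℕ), (∀ (i : ℕ) (v : Fin (a i) → ℕ), y i (⇑σ ∘ v) = x i v) →
        ∀ p u v, o y (⇑σ ∘ p) (σ u) (σ v) ↔ o x p u v) →
      BorelVaught fun x : Str a => ∃ p, Linear (o x p) ∧
        ∀ i, PiecewiseMedian (o x p) fun v => x i v = true) ∧
    (∀ a : ℕ → ℕ,
      (a 0 = 3 → BorelVaught fun x : Str a => ∃ le, Linear le ∧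
        (∀ u v w, ternary x u v w ↔ between le u v w) ∧ Tame x le) ∧
      (a 0 = 3 → BorelVaught fun x : Str a => ∃ le, Linear le ∧
        (∀ u v w, ternary x u v w ↔ circle le u v w) ∧ Tame x le) ∧
      (a 0 = 4 → BorelVaught fun x : Str a => ∃ le, Linear le ∧
        (∀ u v w t, quaternary x u v w t ↔ separate le u v w t) ∧ Tame x le)) ∧
    ((∀ T : L23.Theory, T.IsComplete → AdmitsNearUnanimity R23.le 4 T → Dichotomy L23 T) ↔
      FullConjecture) ∧
    (∀ Γ : Set (Σ r, Operation r),
      (¬ Hard Γ → ∀ L : FirstOrder.Language.{0, 0}, Countable L.Symbols →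
        ∀ (Q : L.Relations 2) (T : L.Theory), Admits Q Γ T → Dichotomy L T) ∧
      (Hard Γ → ((∀ T : L23.Theory, T.IsComplete → Admits R23.le Γ T → Dichotomy L23 T) ↔
        FullConjecture))) ∧
    ∀ Γ : Set (Σ r, Operation r),
      (¬ HardBinary Γ → ∀ L : FirstOrder.Language.{0, 0}, Countable L.Symbols → Binary L →
        ∀ (Q : L.Relations 2) (T : L.Theory), Admits Q Γ T → Dichotomy L T) ∧
      (HardBinary Γ → ((∀ T : L2.Theory, T.IsComplete → Admits R2.fst Γ T → Dichotomy L2 T) ↔
        FullConjecture)) := by
  refine ⟨fun L hL Q T hT => ?_, fun a q hq => ?_, fun a k o ho hi => ?_,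
    fun a => ⟨fun ha => ?_, fun ha => ?_, fun ha => ?_⟩, ⟨fun h L hL T => ?_, fun h T _ _ => h L23 Pool.Agent.H2.LP.countable_L23s T⟩,
    fun Γ => ⟨fun hΓ L hL Q T hT => ?_, fun hΓ => ⟨fun h L hL T => ?_,
      fun h T _ _ => h L23 Pool.Agent.H2.LP.countable_L23s T⟩⟩,
    fun Γ => ⟨fun hΓ L hL hb Q T hT => ?_, fun hΓ => ⟨fun h L hL T => ?_,
      fun h T _ _ => h L2 Pool.Agent.TH686.FO.countable_L2s T⟩⟩⟩
  · exact Pool.Agent.H2.LP.fo_nu hL Q T fun S hS => ⟨lin_iff.1 (hT S hS).1, (hT S hS).2⟩
  · intro B hB hi hV
    refine Pool.Agent.H533R2.VS.vs_plain _ _ (Pool.Agent.H2.LP.vcu_md q) B hB hi fun x hx => ?_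
    obtain ⟨h1, m, h2, h3⟩ := hV x hx
    have h1' := lin_iff.1 h1
    have hmo : ∀ u v : Fin 3 → ℕ, (∀ i, order x q (u i) (v i)) → order x q (m u) (m v) := by
      intro u v huv
      have h4 := h3 q (fun p j => if j.val = 0 then u p else v p) huv
      have e : (fun j : Fin (a q) => m fun p => if j.val = 0 then u p else v p) =
          fun j => if j.val = 0 then m u else m v := by
        funext j
        split_ifs <;> rfl
      rw [e] at h4
      exact h4
    have e := Pool.Agent.H2.LP.nu_md h1' h2 hmo
    subst e
    exact ⟨h1', fun i => Pool.Agent.H2.LP.cl_three.1 (h3 i)⟩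
  · refine bv_of (Pool.Agent.H2.CO.pm_gen (a := a) (k := k) o ho hi) ?_
    rintro x ⟨p, h1, h2⟩
    exact ⟨p, lin_iff.1 h1, fun i => pm_of (h2 i)⟩
  · refine bv_of (Pool.Agent.H2.CO.vcu_bet ha) ?_
    rintro x ⟨le, h1, h2, h3⟩
    exact ⟨le, lin_iff.1 h1, h2, fun i => pm_of (h3 i)⟩
  · refine bv_of (Pool.Agent.H2.CO.vcu_cir ha) ?_
    rintro x ⟨le, h1, h2, h3⟩
    exact ⟨le, lin_iff.1 h1, h2, fun i => pm_of (h3 i)⟩
  · refine bv_of (Pool.Agent.H2.CO.vcu_sep ha) ?_
    rintro x ⟨le, h1, h2, h3⟩
    exact ⟨le, lin_iff.1 h1, h2, fun i => pm_of (h3 i)⟩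
  · exact Pool.Agent.H2.LP.hard_nu (fun T' hT' hS => h T' hT' fun S hm =>
      ⟨lin_iff.2 (hS S hm).1, (hS S hm).2⟩) L hL T
  · refine Pool.Agent.H2.LP.fo_gen hL Q T Γ (fun h => hΓ ⟨fun c hc => mon_iff.2 (h.1 c hc), h.2⟩)
      fun S hS => ⟨lin_iff.1 (hT S hS).1, (hT S hS).2⟩
  · exact Pool.Agent.H2.LP.hard_gen (Γ := Γ) ⟨fun c hc => mon_iff.1 (hΓ.1 c hc), hΓ.2⟩
      (fun T' hT' hS => h T' hT' fun S hm => ⟨lin_iff.2 (hS S hm).1, (hS S hm).2⟩) L hL T
  · refine Pool.Agent.H2.LP.fo_bin hL hb.1 hb.2 Q T Γ
      (fun h => hΓ ⟨fun c hc => mon_iff.2 (h.1 c hc), h.2⟩)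
      fun S hS => ⟨lin_iff.1 (hT S hS).1, (hT S hS).2⟩
  · exact Pool.Agent.H2.LP.hard_bin (Γ := Γ) ⟨fun c hc => mon_iff.1 (hΓ.1 c hc), hΓ.2⟩
      (fun T' hT' hS => h T' hT' fun S hm => ⟨lin_iff.2 (hS S hm).1, (hS S hm).2⟩) L hL T

end Pool.Agent.Results.MP_5df2c5_lc.OrderPolymorphisms
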