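import Pool.Agent.H2.TM.Pos
import Pool.Agent.H2.TM.Cod
import Pool.Agent.H2.TM.Fun
import Pool.Graph.R_seed8.TH686.FO.Main

set_option autoImplicit false

/-!
Vaught's conjecture, perfect-set form, for divisible totally ordered semigroups (in particular for
BL-chains), and the completeness of totally ordered residuated monoids (MTL-chains).
-/

namespace Pool.Agent.Results.MP_5df2c5_lc.ResiduatedChains

open FirstOrder
open Pool.Agent.H2.TM (LM RM FM)

/-- Vaught's conjecture, perfect-set form, for the theory `T` in the language `L` (the body of the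
frozen statement): the models with universe `ℕ` fall into countably many isomorphism classes, or
some continuous family of models, indexed by the Cantor space, consists of pairwise
non-isomorphic models. -/
def Dichotomy (L : FirstOrder.Language.{0, 0}) (T : L.Theory) : Prop :=
  (∃ g : ℕ → L.Structure ℕ, ∀ S : L.Structure ℕ,
      @FirstOrder.Language.Theory.Model L ℕ S T →
        ∃ n : ℕ, Nonempty (@FirstOrder.Language.Equiv L ℕ ℕ S (g n))) ∨
  (∃ f : (ℕ → Bool) → L.Structure ℕ,
      (∀ x : ℕ → Bool, @FirstOrder.Language.Theory.Model L ℕ (f x) T) ∧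
      (∀ x y : ℕ → Bool,
          Nonempty (@FirstOrder.Language.Equiv L ℕ ℕ (f x) (f y)) → x = y) ∧
      (∀ (n : ℕ) (R : L.Relations n) (a : Fin n → ℕ),
          IsClopen {x : ℕ → Bool | @FirstOrder.Language.Structure.RelMap L ℕ (f x) n R a}) ∧
      (∀ (n : ℕ) (F : L.Functions n) (a : Fin n → ℕ) (b : ℕ),
          IsOpen {x : ℕ → Bool | @FirstOrder.Language.Structure.funMap L ℕ (f x) n F a = b}))

/-- Vaught's conjecture for all first-order theories in all countable languages (the frozen
statement). -/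
def FullConjecture : Prop :=
  ∀ L : FirstOrder.Language.{0, 0}, Countable L.Symbols → ∀ T : L.Theory, Dichotomy L T

/-- Relational structures on `ℕ` with relations of arities `a 0, a 1, ...`. -/
abbrev Str (a : ℕ → ℕ) : Type := (i : ℕ) → (Fin (a i) → ℕ) → Bool

/-- Isomorphism. -/
def Iso {a : ℕ → ℕ} (x y : Str a) : Prop :=
  ∃ σ : Equiv.Perm ℕ, ∀ (i : ℕ) (v : Fin (a i) → ℕ), y i (⇑σ ∘ v) = x i v

/-- Vaught's conjecture, in perfect-set form, for all isomorphism-invariant Borel classes of
members of `V`. -/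
def BorelVaught {a : ℕ → ℕ} (V : Str a → Prop) : Prop :=
  ∀ B : Set (Str a), MeasurableSet B → (∀ x y, Iso x y → (x ∈ B ↔ y ∈ B)) → (∀ x ∈ B, V x) →
    (∃ f : ℕ → Str a, ∀ x ∈ B, ∃ n, Iso (f n) x) ∨
    (∃ g : (ℕ → Bool) → Str a, Continuous g ∧ (∀ c, g c ∈ B) ∧ ∀ c d, Iso (g c) (g d) → c = d)

/-- The interpretation of a binary relation symbol. -/
def rel {L : FirstOrder.Language.{0, 0}} (S : L.Structure ℕ) (R : L.Relations 2) (u v : ℕ) : Prop :=
  @FirstOrder.Language.Structure.RelMap L ℕ S 2 R ![u, v]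

/-- The interpretation of a binary function symbol. -/
def op {L : FirstOrder.Language.{0, 0}} (S : L.Structure ℕ) (F : L.Functions 2) (u v : ℕ) : ℕ :=
  @FirstOrder.Language.Structure.funMap L ℕ S 2 F ![u, v]

/-- `power mul u n` is the power of `u` with the exponent `n + 1`. -/
def power (mul : ℕ → ℕ → ℕ) (u : ℕ) : ℕ → ℕ
  | 0 => u
  | n + 1 => mul (power mul u n) u

/-- Divisible, integral, totally ordered semigroups (not necessarily commutative): if `y < x`, then
`y` is a right multiple and a left multiple of `x`. -/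
structure DivisibleChain (le : ℕ → ℕ → Prop) (mul : ℕ → ℕ → ℕ) : Prop where
  refl : ∀ x, le x x
  antisymm : ∀ x y, le x y → le y x → x = y
  trans : ∀ x y z, le x y → le y z → le x z
  total : ∀ x y, le x y ∨ le y x
  assoc : ∀ x y z, mul (mul x y) z = mul x (mul y z)
  integral : ∀ x y, le (mul x y) x ∧ le (mul x y) y
  divisible : ∀ x y, le y x → y ≠ x → (∃ z, mul x z = y) ∧ ∃ z, mul z x = y

/-- MTL-chains: bounded, commutative, integral, residuated, totally ordered monoids. (The residuum
of `x` and `y` is the element `z` in the last axiom.) -/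
structure MTLChain (le : ℕ → ℕ → Prop) (mul : ℕ → ℕ → ℕ) : Prop where
  refl : ∀ x, le x x
  antisymm : ∀ x y, le x y → le y x → x = y
  trans : ∀ x y z, le x y → le y z → le x z
  total : ∀ x y, le x y ∨ le y x
  assoc : ∀ x y z, mul (mul x y) z = mul x (mul y z)
  comm : ∀ x y, mul x y = mul y x
  one : ∃ e, (∀ x, mul e x = x) ∧ ∀ x, le x e
  zero : ∃ o, ∀ x, le o x
  residuated : ∀ x y, ∃ z, ∀ t, le (mul x t) y ↔ le t z

/-- BL-chains: the MTL-chains such that `x * (x → y) = y` for `y ≤ x`, that is, such that `y` is a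
multiple of `x`. -/
structure BLChain (le : ℕ → ℕ → Prop) (mul : ℕ → ℕ → ℕ) : Prop extends MTLChain le mul where
  divisible : ∀ x y, le y x → ∃ z, mul x z = y

/-- The product of any three elements other than the greatest element is the least element. -/
def Nilpotent (le : ℕ → ℕ → Prop) (mul : ℕ → ℕ → ℕ) : Prop :=
  ∀ x y z, (∃ t, ¬ le t x) → (∃ t, ¬ le t y) → (∃ t, ¬ le t z) → ∀ t, le (mul (mul x y) z) t

open Pool.Agent.H2.TM
open Pool.Agent.W889.FO.St0 (RF LF W D gr fun_iff)

private theorem no_of {le : ℕ → ℕ → Prop} {mul : ℕ → ℕ → ℕ} (h : DivisibleChain le mul) :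
    NO (fun u v => le v u) mul where
  refl := h.refl
  anti := fun x y h1 h2 => h.antisymm x y h2 h1
  trans := fun x y z h1 h2 => h.trans z y x h2 h1
  total := fun x y => (h.total x y).symm
  assoc := h.assoc
  posl := fun x y => (h.integral x y).1
  posr := fun x y => (h.integral x y).2
  natl := fun x y h1 h2 => (h.divisible x y h1 (Ne.symm h2)).1
  natr := fun x y h1 h2 => (h.divisible x y h1 (Ne.symm h2)).2

private theorem power_eq (mul : ℕ → ℕ → ℕ) (u : ℕ) : ∀ n, power mul u n = pw mul u n
  | 0 => rfl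
  | n + 1 => by
    show mul (power mul u n) u = mul (pw mul u n) u
    rw [power_eq mul u n]

private theorem mono {le : ℕ → ℕ → Prop} {mul : ℕ → ℕ → ℕ} (h : MTLChain le mul) {x y : ℕ}
    (hxy : le x y) (z : ℕ) : le (mul z x) (mul z y) := by
  obtain ⟨r, hr⟩ := h.residuated z (mul z y)
  rw [hr]
  exact h.trans _ _ _ hxy ((hr y).1 (h.refl _))

private theorem div_of {le : ℕ → ℕ → Prop} {mul : ℕ → ℕ → ℕ} (h : BLChain le mul) :
    DivisibleChain le mul where
  refl := h.refl
  antisymm := h.antisymm
  trans := h.trans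
  total := h.total
  assoc := h.assoc
  integral := by
    obtain ⟨e, h1, h2⟩ := h.one
    have key : ∀ x y, le (mul x y) x := by
      intro x y
      have h3 := mono h.toMTLChain (h2 y) x
      rw [h.comm x e, h1] at h3
      exact h3
    intro x y
    refine ⟨key x y, ?_⟩
    rw [h.comm x y]
    exact key y x
  divisible := by
    intro x y h1 _
    obtain ⟨z, hz⟩ := h.divisible x y h1
    exact ⟨⟨z, hz⟩, z, by rw [h.comm]; exact hz⟩

private theorem mtl_of {M : LM.Structure ℕ} (h : Wm (Gr M)) :
    MTLChain (rel M RM.le) (op M FM.mul) ∧ Nilpotent (rel M RM.le) (op M FM.mul) := by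
  obtain ⟨θ, -, k1, k2⟩ := h.theta
  have L1 := h.L1
  have L2 := h.L2
  have e1 : ∀ a b, rel M RM.le a b ↔ El.le (l1V (Gr M)) (l2V (Gr M)) (θ a) (θ b) := k1
  have e2 : ∀ a b, θ (op M FM.mul a b) = El.mul (l1V (Gr M)) (θ a) (θ b) := by
    intro a b
    refine ((k2 a b (op M FM.mul a b)).1 ?_).symm
    show @FirstOrder.Language.Structure.funMap LM ℕ M 2 FM.mul
      (fun i => ![a, b, op M FM.mul a b] i.castSucc) = ![a, b, op M FM.mul a b] (Fin.last 2)
    have e3 : (fun i : Fin 2 => ![a, b, op M FM.mul a b] i.castSucc) = ![a, b] := by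
      funext i
      fin_cases i <;> rfl
    rw [e3]
    rfl
  have hne : ∀ x, (∃ t, ¬ rel M RM.le t x) → θ x ≠ El.one := by
    rintro x ⟨t, ht⟩ hx
    rw [e1, hx] at ht
    exact ht (El.le_one _)
  refine ⟨⟨?_, ?_, ?_, ?_, ?_, ?_, ?_, ?_, ?_⟩, ?_⟩
  · intro x
    rw [e1]
    exact El.le_refl _
  · intro x y h1 h2
    rw [e1] at h1 h2
    exact θ.injective (El.le_anti L1 L2 h1 h2)
  · intro x y z h1 h2
    rw [e1] at h1 h2 ⊢
    exact El.le_trans L1 L2 h1 h2
  · intro x y
    rw [e1, e1]
    exact El.le_total L1 L2 _ _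
  · intro x y z
    apply θ.injective
    rw [e2, e2, e2, e2]
    exact El.mul_assoc' _ _ _
  · intro x y
    apply θ.injective
    rw [e2, e2]
    exact El.mul_comm' _ _
  · refine ⟨θ.symm El.one, fun x => ?_, fun x => ?_⟩
    · apply θ.injective
      rw [e2, θ.apply_symm_apply]
      rfl
    · rw [e1, θ.apply_symm_apply]
      exact El.le_one _
  · refine ⟨θ.symm El.z, fun x => ?_⟩
    rw [e1, θ.apply_symm_apply]
    exact El.z_le _
  · intro x y
    obtain ⟨r, hr⟩ := El.res L1 L2 (θ x) (θ y)
    refine ⟨θ.symm r, fun t => ?_⟩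
    rw [e1, e1, e2, θ.apply_symm_apply]
    exact hr _
  · intro x y z hx hy hz t
    rw [e1, e2, e2, El.mul_three (hne x hx) (hne y hy) (hne z hz)]
    exact El.z_le _

private theorem wm_iso {S S' : (LF LM).Structure ℕ} (h : Pool.Agent.W889.FO.SIso S S')
    (hS : Wm S) : Wm S' := by
  obtain ⟨T, hT⟩ := ax_Wm
  exact (hT S').1 (h.model ((hT S).2 hS))

private theorem w_of {S : (LF LM).Structure ℕ} (h : Wm S) : W S := by
  obtain ⟨θ, -, -, k2⟩ := h.theta
  have e1 : ∀ (v : Fin 2 → ℕ) (b : ℕ), gr S FM.mul v b ↔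
      El.mul (l1V S) (θ (v 0)) (θ (v 1)) = θ b := by
    intro v b
    rw [← k2]
    show @FirstOrder.Language.Structure.RelMap (LF LM) ℕ S _ (RF.fn FM.mul)
      (Fin.snoc (α := fun _ => ℕ) v b) ↔
      @FirstOrder.Language.Structure.RelMap (LF LM) ℕ S _ (RF.fn FM.mul) ![v 0, v 1, b]
    have e2 : (Fin.snoc (α := fun _ => ℕ) v b : Fin 3 → ℕ) = ![v 0, v 1, b] := by
      funext i
      fin_cases i <;> rfl
    rw [e2]
  constructor
  · rintro ⟨n, F⟩ v
    cases F with
    | mul => exact ⟨_, (e1 v (θ.symm _)).2 (θ.apply_symm_apply _).symm⟩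
  · rintro ⟨n, F⟩ v b b' h1 h2
    cases F with
    | mul => exact θ.injective (((e1 v b).1 h1).symm.trans ((e1 v b').1 h2))

private theorem countable_symbols : Countable LM.Symbols := by
  have h1 : ∀ n, Countable (FM n) := fun n => ⟨fun _ => 0, fun a b _ => by
    cases a
    cases b
    rfl⟩
  have h2 : ∀ n, Countable (RM n) := fun n => ⟨fun _ => 0, fun a b _ => by
    cases a
    cases b
    rfl⟩
  have h3 : Countable ((Σ n, FM n) ⊕ Σ n, RM n) := inferInstance
  exact h3

/-- (1) A first-order theory in a countable language, all of whose models with universe `ℕ` are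
divisible, integral, totally ordered semigroups with unary predicates and constants, satisfies
Vaught's conjecture in perfect-set form. (2) If, for some `N`, `u ^ (N + 1) = u ^ (N + 2)` for all
`u`, then this is true for all isomorphism-invariant Borel classes. (3) BL-chains are divisible,
integral, totally ordered semigroups. (4) Vaught's conjecture for all first-order theories in all
countable languages is equivalent to the conjecture for the complete theories all of whose models
are MTL-chains in which the product of any three non-unit elements is zero. -/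
theorem result :
    (∀ L : FirstOrder.Language.{0, 0}, Countable L.Symbols →
      ∀ (le : L.Relations 2) (mul : L.Functions 2),
      (∀ (n : ℕ) (R : L.Relations n), n = 1 ∨ (⟨n, R⟩ : Σ n, L.Relations n) = ⟨2, le⟩) →
      (∀ (n : ℕ) (F : L.Functions n), n = 0 ∨ (⟨n, F⟩ : Σ n, L.Functions n) = ⟨2, mul⟩) →
      ∀ T : L.Theory, (∀ S : L.Structure ℕ, @FirstOrder.Language.Theory.Model L ℕ S T →
        DivisibleChain (rel S le) (op S mul)) → Dichotomy L T) ∧
    (∀ (a : ℕ → ℕ) (l m N : ℕ), a l = 2 → a m = 3 → (∀ i, i ≠ l → i ≠ m → a i = 1) →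
      BorelVaught fun x : Str a => ∃ mul : ℕ → ℕ → ℕ,
        DivisibleChain (fun u v => x l (fun j => if j.val = 0 then u else v) = true) mul ∧
        (∀ u v w, x m (fun j => if j.val = 0 then u else if j.val = 1 then v else w) = true ↔
          mul u v = w) ∧ ∀ u, power mul u N = power mul u (N + 1)) ∧
    (∀ (le : ℕ → ℕ → Prop) (mul : ℕ → ℕ → ℕ), BLChain le mul → DivisibleChain le mul) ∧
    (FullConjecture ↔ ∀ T : LM.Theory, T.IsComplete →
      (∀ S : LM.Structure ℕ, @FirstOrder.Language.Theory.Model LM ℕ S T →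
        MTLChain (rel S RM.le) (op S FM.mul) ∧ Nilpotent (rel S RM.le) (op S FM.mul)) →
      Dichotomy LM T) := by
  refine ⟨fun L hL le mul hR hF T hT => ?_, fun a l m N hl hm har => ?_, fun le mul => div_of,
    fun h T _ _ => h LM ?_ T, fun h L hL T => ?_⟩
  · exact vaught_no hL T le mul hR hF fun S hS => no_of (hT S hS)
  · intro B hB hi hV
    refine Pool.Agent.H533R2.VS.vs_plain _ _ (vcu_bd hl hm (fun i h1 h2 => (har i h1 h2).le) N)
      B hB hi fun x hx => ?_
    obtain ⟨mul, h1, h2, h3⟩ := hV x hx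
    refine ⟨⟨mul, no_of h1, h2, fun u => ?_⟩, fun i h0 v => ?_⟩
    · rw [← power_eq, ← power_eq]
      exact h3 u
    · exfalso
      by_cases h4 : i = l
      · rw [h4, hl] at h0
        omega
      · by_cases h5 : i = m
        · rw [h5, hm] at h0
          omega
        · rw [har i h4 h5] at h0
          omega
  · exact countable_symbols
  · have := Pool.Agent.TH686.FO.countable_L2
    refine Pool.Agent.TH686.FO.all_of_LG (fun T0 => red_code (fun T' hT' =>
      compF countable_symbols h T' fun S hS => ?_) T0) L hL T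
    have hW := hT' S hS
    have h1 := w_of hW
    exact ⟨h1, mtl_of (wm_iso (Gr_D h1).symm hW)⟩

end Pool.Agent.Results.MP_5df2c5_lc.ResiduatedChains
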